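import Pool.Agent.helper77.PV.SpecA

set_option autoImplicit false

open scoped Matrix Topology
open Filter

namespace Pool.Agent.PV

open Pool.Agent.CZ

/-- the invertible matrix of an equivalence of idempotents -/
theorem K0C_unit {A : Type} [Ring A] {J : Type} [Fintype J] [DecidableEq J]
    (E F x y : Matrix J J A) (hE : E * E = E) (hF : F * F = F) (hxy : x * y = E)
    (hyx : y * x = F) :
    ∃ g : (Matrix (J ⊕ J) (J ⊕ J) A)ˣ,
      (g : Matrix (J ⊕ J) (J ⊕ J) A) * Matrix.fromBlocks E 0 0 0 =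
        Matrix.fromBlocks F 0 0 0 * (g : Matrix (J ⊕ J) (J ⊕ J) A) := by
  set x' : Matrix J J A := E * x * F with hx'
  set y' : Matrix J J A := F * y * E with hy'
  have hxFy : x * F * y = E := by
    rw [← hyx]
    calc x * (y * x) * y = (x * y) * (x * y) := by noncomm_ring
      _ = E := by rw [hxy, hE]
  have hyEx : y * E * x = F := by
    rw [← hxy]
    calc y * (x * y) * x = (y * x) * (y * x) := by noncomm_ring
      _ = F := by rw [hyx, hF]
  have h1 : x' * y' = E := by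
    calc x' * y' = E * (x * (F * F) * y) * E := by rw [hx', hy']; noncomm_ring
      _ = E := by rw [hF, hxFy, hE, hE]
  have h2 : y' * x' = F := by
    calc y' * x' = F * (y * (E * E) * x) * F := by rw [hx', hy']; noncomm_ring
      _ = F := by rw [hE, hyEx, hF, hF]
  have h3 : E * x' = x' := by rw [hx', ← mul_assoc, ← mul_assoc, hE]
  have h4 : x' * F = x' := by rw [hx', mul_assoc, hF]
  have h5 : F * y' = y' := by rw [hy', ← mul_assoc, ← mul_assoc, hF]
  have h6 : y' * E = y' := by rw [hy', mul_assoc, hE]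
  have hE1 : (1 - E) * (1 - E) = 1 - E := by
    rw [sub_mul, mul_sub, mul_sub, hE]; simp
  have hF1 : (1 - F) * (1 - F) = 1 - F := by
    rw [sub_mul, mul_sub, mul_sub, hF]; simp
  have h3' : (1 - E) * x' = 0 := by rw [sub_mul, one_mul, h3, sub_self]
  have h4' : x' * (1 - F) = 0 := by rw [mul_sub, mul_one, h4, sub_self]
  have h5' : (1 - F) * y' = 0 := by rw [sub_mul, one_mul, h5, sub_self]
  have h6' : y' * (1 - E) = 0 := by rw [mul_sub, mul_one, h6, sub_self]
  refine ⟨⟨Matrix.fromBlocks y' (1 - F) (1 - E) x', Matrix.fromBlocks x' (1 - E) (1 - F) y', ?_, ?_⟩, ?_⟩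
  · rw [Matrix.fromBlocks_multiply, h2, hF1, h6', h5', h3', h4', hE1, h1, add_zero,
      add_sub_cancel, sub_add_cancel, Matrix.fromBlocks_one]
  · rw [Matrix.fromBlocks_multiply, h1, hE1, h4', h3', h5', h6', hF1, h2, add_zero,
      add_sub_cancel, sub_add_cancel, Matrix.fromBlocks_one]
  · change Matrix.fromBlocks y' (1 - F) (1 - E) x' * Matrix.fromBlocks E 0 0 0 =
      Matrix.fromBlocks F 0 0 0 * Matrix.fromBlocks y' (1 - F) (1 - E) x'
    rw [Matrix.fromBlocks_multiply, Matrix.fromBlocks_multiply, h6, h5]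
    have h7 : (1 - E) * E = 0 := by rw [sub_mul, one_mul, hE, sub_self]
    have h8 : F * (1 - F) = 0 := by rw [mul_sub, mul_one, hF, sub_self]
    rw [h7, h8]
    simp

/-- the reindexing -/
noncomputable def K0C_eq (ι : Type) [Fintype ι] (k : ℕ) :
    (ι ⊕ Fin k) ⊕ (ι ⊕ Fin k) ≃ ι ⊕ (Fin k ⊕ Fin (Fintype.card (ι ⊕ Fin k))) :=
  (Equiv.sumAssoc ι (Fin k) (ι ⊕ Fin k)).trans
    (Equiv.sumCongr (Equiv.refl ι) (Equiv.sumCongr (Equiv.refl (Fin k)) (Fintype.equivFin (ι ⊕ Fin k))))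

theorem K0C_pad {A : Type} [Ring A] (ι : Type) [Fintype ι] [DecidableEq ι] (k : ℕ)
    (e : Matrix ι ι A) :
    Matrix.reindexRingEquiv A (K0C_eq ι k) (Matrix.fromBlocks (Matrix.fromBlocks e 0 0 1) 0 0 0) =
      pad e k (Fintype.card (ι ⊕ Fin k)) := by
  ext i j
  unfold pad
  rcases i with i | i | i <;> rcases j with j | j | j <;>
    simp [K0C_eq, Matrix.reindexRingEquiv]

theorem K0C (hK0Q : K0Q_stmt) : K0C_stmt := by
  intro A _ ι _ _ e f he hf hef
  obtain ⟨k, x, y, hx, hy⟩ := hK0Q A (Fintype.card ι) (Fintype.card ι)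
    (e.submatrix (Fintype.equivFin ι).symm (Fintype.equivFin ι).symm)
    (f.submatrix (Fintype.equivFin ι).symm (Fintype.equivFin ι).symm) _ _ hef
  set σ : ι ⊕ Fin k ≃ Fin (Fintype.card ι) ⊕ Fin k :=
    Equiv.sumCongr (Fintype.equivFin ι) (Equiv.refl (Fin k)) with hσ
  have hbl : ∀ a : Matrix ι ι A, (Matrix.fromBlocks (a.submatrix (Fintype.equivFin ι).symm
      (Fintype.equivFin ι).symm) 0 0 1 : Matrix (Fin (Fintype.card ι) ⊕ Fin k)
      (Fin (Fintype.card ι) ⊕ Fin k) A).submatrix σ σ = Matrix.fromBlocks a 0 0 1 := by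
    intro a
    ext i j
    rcases i with i | i <;> rcases j with j | j <;> simp [hσ]
  have hid : ∀ a : Matrix ι ι A, a * a = a →
      (Matrix.fromBlocks a 0 0 1 : Matrix (ι ⊕ Fin k) (ι ⊕ Fin k) A) *
        Matrix.fromBlocks a 0 0 1 = Matrix.fromBlocks a 0 0 1 := by
    intro a ha
    rw [Matrix.fromBlocks_multiply, ha]
    simp
  have h1 : x.submatrix σ σ * y.submatrix σ σ = Matrix.fromBlocks e 0 0 1 := by
    rw [Matrix.submatrix_mul_equiv, hx, hbl]
  have h2 : y.submatrix σ σ * x.submatrix σ σ = Matrix.fromBlocks f 0 0 1 := by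
    rw [Matrix.submatrix_mul_equiv, hy, hbl]
  obtain ⟨g, hg⟩ := K0C_unit _ _ _ _ (hid e he) (hid f hf) h1 h2
  refine ⟨k, Fintype.card (ι ⊕ Fin k), rix (K0C_eq ι k) g, ?_⟩
  have h3 : ((rix (K0C_eq ι k) g : (Matrix (ι ⊕ (Fin k ⊕ Fin (Fintype.card (ι ⊕ Fin k))))
      (ι ⊕ (Fin k ⊕ Fin (Fintype.card (ι ⊕ Fin k)))) A)ˣ) :
      Matrix (ι ⊕ (Fin k ⊕ Fin (Fintype.card (ι ⊕ Fin k))))
      (ι ⊕ (Fin k ⊕ Fin (Fintype.card (ι ⊕ Fin k)))) A) =
      Matrix.reindexRingEquiv A (K0C_eq ι k) (g : Matrix _ _ A) := rfl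
  rw [h3, ← K0C_pad, ← K0C_pad, ← map_mul, ← map_mul, hg]

end Pool.Agent.PV
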