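import Pool.Agent.helper77.PV.SpecA

set_option autoImplicit false

open scoped Matrix Topology
open Filter

namespace Pool.Agent.PV

open Pool.Agent.CZ

theorem K1M_mk {A : Type} [Ring A] [TopologicalSpace A] (z : FreeAbelianGroup (InvMat A))
    (h : z ∈ K1Rel A) : (QuotientAddGroup.mk z : K1 A) = 0 :=
  (QuotientAddGroup.eq_zero_iff z).2 (AddSubgroup.subset_closure h)

theorem K1M_mul {A : Type} [Ring A] [TopologicalSpace A] {n : ℕ}
    (g h : (Matrix (Fin n) (Fin n) A)ˣ) :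
    (cls1 ⟨n, g * h⟩ : K1 A) = cls1 ⟨n, g⟩ + cls1 ⟨n, h⟩ := by
  have h1 := K1M_mk (A := A) (FreeAbelianGroup.of ⟨n, g * h⟩ -
      FreeAbelianGroup.of ⟨n, g⟩ - FreeAbelianGroup.of ⟨n, h⟩) (Or.inl ⟨n, g, h, rfl⟩)
  have h2 : (cls1 ⟨n, g * h⟩ : K1 A) - cls1 ⟨n, g⟩ - cls1 ⟨n, h⟩ = 0 := h1
  rw [sub_sub, sub_eq_zero] at h2
  exact h2

theorem K1M_htp {A : Type} [Ring A] [TopologicalSpace A] {n : ℕ}
    (g h : (Matrix (Fin n) (Fin n) A)ˣ) (hh : Htp g h) :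
    (cls1 ⟨n, g⟩ : K1 A) = cls1 ⟨n, h⟩ := by
  have h1 := K1M_mk (A := A) (FreeAbelianGroup.of ⟨n, g⟩ -
      FreeAbelianGroup.of ⟨n, h⟩) (Or.inr (Or.inr ⟨n, g, h, hh, rfl⟩))
  have h2 : (cls1 ⟨n, g⟩ : K1 A) - cls1 ⟨n, h⟩ = 0 := h1
  rw [sub_eq_zero] at h2
  exact h2

theorem K1M_rix {A : Type} [Ring A] [TopologicalSpace A] {ι κ : Type} [Fintype ι] [DecidableEq ι]
    [Fintype κ] [DecidableEq κ] (f : ι ≃ κ) (g h : (Matrix ι ι A)ˣ) (hh : Htp g h) :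
    Htp (rix f g) (rix f h) := by
  obtain ⟨γ, h1, h2, h3⟩ := hh
  refine ⟨⟨fun t => Matrix.reindexRingEquiv A f (γ t), ?_⟩, ?_, ?_, ?_⟩
  · change Continuous (fun t => (γ t).submatrix f.symm f.symm)
    exact γ.continuous.matrix_submatrix _ _
  · intro t
    exact (h1 t).map (Matrix.reindexRingEquiv A f)
  · change Matrix.reindexRingEquiv A f (γ 0) = _
    rw [h2]
    rfl
  · change Matrix.reindexRingEquiv A f (γ 1) = _
    rw [h3]
    rfl

theorem K1M : K1M_stmt := by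
  intro A _ _ ι _ _ g h
  have hm : ∀ g h : (Matrix ι ι A)ˣ, k1 (g * h) = k1 g + k1 h := by
    intro g h
    unfold k1
    have h1 : rix (Fintype.equivFin ι) (g * h) =
        rix (Fintype.equivFin ι) g * rix (Fintype.equivFin ι) h := map_mul _ g h
    rw [h1, K1M_mul]
  have h0 : k1 (1 : (Matrix ι ι A)ˣ) = 0 := by
    have h2 := hm 1 1
    rw [mul_one] at h2
    exact left_eq_add.1 h2
  refine ⟨hm g h, ?_, h0, ?_⟩
  · have h2 := hm g⁻¹ g
    rw [inv_mul_cancel, h0] at h2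
    exact eq_neg_of_add_eq_zero_left h2.symm
  · intro hh
    exact K1M_htp _ _ (K1M_rix _ g h hh)

end Pool.Agent.PV
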