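import Pool.Agent.helper72.PV.SpecH

set_option autoImplicit false

open Finset

namespace Pool.Agent.PVH

open Pool.Agent.PV Pool.Agent.CZ

theorem QSF_sum {n : ℕ → ℕ} {h : ℕ → ℕ → ℕ} {M : ℕ → ℕ → ℕ → ℕ} {pr : ℕ → ℕ × ℕ → ℕ × ℕ}
    (hT : TSys n h M pr) (k : ℕ) (F : ℕ × ℕ → ℤ) (v' : ℕ) (hv : v' < n (k + 1)) :
    ∑ j ∈ range (h (k + 1) v'), F (nxt h pr k (v', j)) =
      ∑ j ∈ range (h (k + 1) v'), F (pr k (v', j)) := by
  have hpos := hT.toBRT.hpos (k + 1) v' hv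
  obtain ⟨r, hr⟩ := Nat.exists_eq_succ_of_ne_zero hpos.ne'
  have hr' : h (k + 1) v' = r + 1 := hr
  rw [hr', Finset.sum_range_succ, Finset.sum_range_succ']
  have h1 : F (nxt h pr k (v', r)) = F (pr k (v', 0)) := by
    unfold nxt
    rw [if_neg (by simp only; omega), hT.bot k v' hv]
  rw [h1]
  congr 1
  refine Finset.sum_congr rfl fun j hj => ?_
  rw [Finset.mem_range] at hj
  unfold nxt
  rw [if_pos (by simp only; omega)]

theorem QSF (hFAC : FAC_stmt) (hQLV : QLV_stmt) : QSF_stmt := by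
  intro H _ P g n h M pr th hT hTH Q hQ s hs f
  obtain ⟨k, F, hF⟩ := hFAC n h pr f
  have h1 : Q (f.comp (s : C(↥(Om n h pr), ↥(Om n h pr)))) =
      Qv n h th (k + 1) (fun p => F (nxt h pr k p)) := by
    refine hQ _ (k + 1) _ ?_
    intro x
    have h2 : (f.comp (s : C(↥(Om n h pr), ↥(Om n h pr)))) x = f (s x) := rfl
    rw [h2, hF (s x), hs x k]
  rw [h1, hQ f k F hF, ← hQLV H P g n h M pr th hT hTH k F]
  unfold Qv
  refine Finset.sum_congr rfl fun v hv => ?_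
  rw [Finset.mem_range] at hv
  rw [QSF_sum hT k F v hv]

end Pool.Agent.PVH
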