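import Pool.Agent.helper77.PV.SpecB

set_option autoImplicit false

open scoped Matrix Topology
open Filter

namespace Pool.Agent.PV

open Pool.Agent.CZ

theorem T1_zpow {A : Type} [Ring A] (ι : Type) [Fintype ι] [DecidableEq ι] (u : Aˣ) (k : ℤ) :
    uM ι u ^ k = uM ι (u ^ k) := by
  unfold uM
  exact (map_zpow _ u k).symm

theorem T1_cov {B A : Type} [NormedRing B] [NormedAlgebra ℂ B] [NormedRing A] [NormedAlgebra ℂ A]
    (al : B ≃ₐ[ℂ] B) (io : B →ₐ[ℂ] A) (u : Aˣ)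
    (h : ∀ (k : ℤ) (b : B), ((u ^ k : Aˣ) : A) * io b = io ((al ^ k) b) * ((u ^ k : Aˣ) : A))
    {ι : Type} [Fintype ι] [DecidableEq ι] (k : ℤ) (b : Matrix ι ι B) :
    ((uM ι u ^ k : (Matrix ι ι A)ˣ) : Matrix ι ι A) * b.map io =
      (b.map (al ^ k : B ≃ₐ[ℂ] B)).map io * ((uM ι u ^ k : (Matrix ι ι A)ˣ) : Matrix ι ι A) := by
  rw [T1_zpow]
  have h1 : ((uM ι (u ^ k) : (Matrix ι ι A)ˣ) : Matrix ι ι A) =
      Matrix.diagonal (fun _ => ((u ^ k : Aˣ) : A)) := rfl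
  rw [h1]
  ext i j
  rw [Matrix.diagonal_mul, Matrix.mul_diagonal]
  exact h k (b i j)

/-- polynomial times a constant matrix -/
theorem T1_pXmul {B A : Type} [NormedRing B] [NormedAlgebra ℂ B] [NormedRing A] [NormedAlgebra ℂ A]
    (al : B ≃ₐ[ℂ] B) (io : B →ₐ[ℂ] A) (u : Aˣ)
    (h : ∀ (k : ℤ) (b : B), ((u ^ k : Aˣ) : A) * io b = io ((al ^ k) b) * ((u ^ k : Aˣ) : A))
    {ι : Type} [Fintype ι] [DecidableEq ι] (x : ℕ → Matrix ι ι B) (d : ℕ) (b : Matrix ι ι B) :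
    pX io u x d * b.map io = pX io u (fun k => x k * b.map (al ^ k : B ≃ₐ[ℂ] B)) d := by
  unfold pX
  rw [Finset.sum_mul]
  refine Finset.sum_congr rfl fun k _ => ?_
  have h1 := T1_cov al io u h (ι := ι) (k : ℤ) b
  rw [zpow_natCast, zpow_natCast] at h1
  have h2 : (x k * b.map (al ^ k : B ≃ₐ[ℂ] B)).map io =
      (x k).map io * (b.map (al ^ k : B ≃ₐ[ℂ] B)).map io := Matrix.map_mul (f := io.toRingHom)
  calc (x k).map io * ((uM ι u ^ k : (Matrix ι ι A)ˣ) : Matrix ι ι A) * b.map io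
      = (x k).map io * (((uM ι u ^ k : (Matrix ι ι A)ˣ) : Matrix ι ι A) * b.map io) := by
        rw [mul_assoc]
    _ = (x k).map io * ((b.map (al ^ k : B ≃ₐ[ℂ] B)).map io *
          ((uM ι u ^ k : (Matrix ι ι A)ˣ) : Matrix ι ι A)) := by rw [h1]
    _ = (x k * b.map (al ^ k : B ≃ₐ[ℂ] B)).map io *
          ((uM ι u ^ k : (Matrix ι ι A)ˣ) : Matrix ι ι A) := by rw [h2, mul_assoc]

theorem T1_mulpX {B A : Type} [NormedRing B] [NormedAlgebra ℂ B] [NormedRing A] [NormedAlgebra ℂ A]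
    (io : B →ₐ[ℂ] A) (u : Aˣ)
    {ι : Type} [Fintype ι] [DecidableEq ι] (x : ℕ → Matrix ι ι B) (d : ℕ) (q : Matrix ι ι B) :
    q.map io * pX io u x d = pX io u (fun k => q * x k) d := by
  unfold pX
  rw [Finset.mul_sum]
  refine Finset.sum_congr rfl fun k _ => ?_
  have h2 : (q * x k).map io = q.map io * (x k).map io := Matrix.map_mul (f := io.toRingHom)
  rw [h2, mul_assoc]

theorem T1_addpX {B A : Type} [NormedRing B] [NormedAlgebra ℂ B] [NormedRing A] [NormedAlgebra ℂ A]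
    (io : B →ₐ[ℂ] A) (u : Aˣ)
    {ι : Type} [Fintype ι] [DecidableEq ι] (x y : ℕ → Matrix ι ι B) (d : ℕ) :
    pX io u x d + pX io u y d = pX io u (fun k => x k + y k) d := by
  unfold pX
  rw [← Finset.sum_add_distrib]
  refine Finset.sum_congr rfl fun k _ => ?_
  have h2 : (x k + y k).map io = (x k).map io + (y k).map io := by
    ext i j
    exact map_add io _ _
  rw [h2, add_mul]

theorem T1_padmap {B A : Type} [Ring B] [Ring A] (φ : B →+* A) {ι : Type} (e : Matrix ι ι B) (k l : ℕ) :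
    pad (e.map φ) k l = (pad e k l).map φ := by
  ext i j
  unfold pad
  rcases i with i | i | i <;> rcases j with j | j | j <;> simp [Matrix.one_apply]

theorem T1_zmul {B : Type} [NormedRing B] [NormedAlgebra ℂ B] (hFUN : FUN_stmt) (al be : B ≃ₐ[ℂ] B)
    (y : K0 B) : k0a (al * be) y = k0a al (k0a be y) := by
  exact hFUN.2.1 B B B (be : B →ₐ[ℂ] B).toRingHom (al : B →ₐ[ℂ] B).toRingHom y

theorem T1_tel {B : Type} [NormedRing B] [NormedAlgebra ℂ B] (hFUN : FUN_stmt) (al : B ≃ₐ[ℂ] B)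
    (y : K0 B) (N : ℕ) : ∃ v : K0 B, y - k0a (al ^ (-(N : ℤ))) y = v - k0a al v := by
  induction N with
  | zero =>
    refine ⟨0, ?_⟩
    have h1 : k0a (al ^ (-((0 : ℕ) : ℤ))) y = y := by
      rw [Nat.cast_zero, neg_zero, zpow_zero]
      exact hFUN.1 B y
    rw [h1, sub_self, map_zero, sub_zero]
  | succ N ih =>
    obtain ⟨v, hv⟩ := ih
    refine ⟨v - k0a (al ^ (-((N + 1 : ℕ) : ℤ))) y, ?_⟩
    have h1 : k0a (al ^ (-(N : ℤ))) y = k0a al (k0a (al ^ (-((N + 1 : ℕ) : ℤ))) y) := by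
      rw [← T1_zmul hFUN, ← zpow_one_add]
      congr 3
      push_cast
      ring
    rw [map_sub, ← h1]
    have h2 : y = v - k0a al v + k0a (al ^ (-(N : ℤ))) y := by rw [← hv]; abel
    nth_rewrite 1 [h2]
    abel

theorem T1_size {B A : Type} [Ring B] [Ring A] (hK0G : K0G_stmt) (hK0B : K0B_stmt)
    (hK0C : K0C_stmt) (hK0D : K0D_stmt) (φ : B →+* A) (z : K0 B) (hz : k0map φ z = 0) :
    ∃ (ι : Type) (_ : Fintype ι) (_ : DecidableEq ι) (P Q : Matrix ι ι B) (hP : P * P = P)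
      (hQ : Q * Q = Q) (g : (Matrix ι ι A)ˣ), z = k0 P hP - k0 Q hQ ∧
      (g : Matrix ι ι A) * P.map φ = Q.map φ * (g : Matrix ι ι A) := by
  obtain ⟨n, m, e, he, hze⟩ := hK0G B z
  have h0 : (0 : Matrix (Fin n) (Fin n) B) * 0 = 0 := mul_zero _
  have h0' : (0 : Matrix (Fin m) (Fin m) B) * 0 = 0 := mul_zero _
  have h1 : (1 : Matrix (Fin m) (Fin m) B) * 1 = 1 := mul_one _
  have hP : (Matrix.fromBlocks e 0 0 (0 : Matrix (Fin m) (Fin m) B)) *
      Matrix.fromBlocks e 0 0 (0 : Matrix (Fin m) (Fin m) B) =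
      Matrix.fromBlocks e 0 0 (0 : Matrix (Fin m) (Fin m) B) := by
    rw [Matrix.fromBlocks_multiply, he]
    simp
  have hQ : (Matrix.fromBlocks (0 : Matrix (Fin n) (Fin n) B) 0 0 (1 : Matrix (Fin m) (Fin m) B)) *
      Matrix.fromBlocks (0 : Matrix (Fin n) (Fin n) B) 0 0 (1 : Matrix (Fin m) (Fin m) B) =
      Matrix.fromBlocks (0 : Matrix (Fin n) (Fin n) B) 0 0 (1 : Matrix (Fin m) (Fin m) B) := by
    rw [Matrix.fromBlocks_multiply]
    simp
  set P := Matrix.fromBlocks e 0 0 (0 : Matrix (Fin m) (Fin m) B) with hPd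
  set Q := Matrix.fromBlocks (0 : Matrix (Fin n) (Fin n) B) 0 0 (1 : Matrix (Fin m) (Fin m) B) with hQd
  have hk1 : k0 P hP = k0 e he := by
    rw [hK0B.1 B (Fin n) (Fin m) e 0 he h0' hP, hK0B.2.1 B (Fin m) h0', add_zero]
  have hk2 : k0 Q hQ = m • unitCls B := by
    rw [hK0B.1 B (Fin n) (Fin m) 0 1 h0 h1 hQ, hK0B.2.1 B (Fin n) h0, zero_add,
      hK0B.2.2 B (Fin m) h1, Fintype.card_fin]
  have hz2 : z = k0 P hP - k0 Q hQ := by rw [hk1, hk2, hze]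
  have hPA : P.map φ * P.map φ = P.map φ := by rw [← Matrix.map_mul, hP]
  have hQA : Q.map φ * Q.map φ = Q.map φ := by rw [← Matrix.map_mul, hQ]
  have hkA : k0 (P.map φ) hPA = k0 (Q.map φ) hQA := by
    have h2 : k0map φ (k0 P hP) - k0map φ (k0 Q hQ) = 0 := by rw [← map_sub, ← hz2, hz]
    exact sub_eq_zero.1 h2
  obtain ⟨k, l, g, hg⟩ := hK0C A (Fin n ⊕ Fin m) (P.map φ) (Q.map φ) hPA hQA hkA
  obtain ⟨hp1, hp2⟩ := hK0D B (Fin n ⊕ Fin m) P hP k l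
  obtain ⟨hq1, hq2⟩ := hK0D B (Fin n ⊕ Fin m) Q hQ k l
  refine ⟨(Fin n ⊕ Fin m) ⊕ (Fin k ⊕ Fin l), inferInstance, inferInstance, pad P k l, pad Q k l,
    hp1, hq1, g, ?_, ?_⟩
  · rw [hp2, hq2, hz2]
    abel
  · rw [← T1_padmap, ← T1_padmap]
    exact hg

section norms

attribute [local instance] Matrix.linftyOpNormedRing Matrix.linftyOpNormedAlgebra

theorem T1_unit (A : Type) [NormedRing A] [CompleteSpace A] (ι : Type) [Fintype ι]
    [DecidableEq ι] (P Q : Matrix ι ι A) (g : (Matrix ι ι A)ˣ) :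
    ∃ ε : ℝ, 0 < ε ∧ ∀ g₀ : Matrix ι ι A, ‖(g : Matrix ι ι A) - g₀‖ < ε →
      Q * (g : Matrix ι ι A) * P + (1 - Q) * (g : Matrix ι ι A) * (1 - P) = (g : Matrix ι ι A) →
      IsUnit (Q * g₀ * P + (1 - Q) * g₀ * (1 - P)) := by
  have hcs : @CompleteSpace (Matrix ι ι A) (PseudoMetricSpace.toUniformSpace) :=
    inferInstanceAs (CompleteSpace (ι → ι → A))
  have hop : IsOpen {x : Matrix ι ι A | IsUnit x} := Units.isOpen
  obtain ⟨δ, hδ, hball⟩ := Metric.isOpen_iff.1 hop (g : Matrix ι ι A) g.isUnit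
  set C : ℝ := ‖Q‖ * ‖P‖ + ‖1 - Q‖ * ‖1 - P‖ + 1 with hC
  have hCpos : 0 < C := by positivity
  refine ⟨δ / C, by positivity, ?_⟩
  intro g₀ hg₀ hg
  apply hball
  rw [Metric.mem_ball, dist_eq_norm]
  have h1 : Q * g₀ * P + (1 - Q) * g₀ * (1 - P) - (g : Matrix ι ι A) =
      - (Q * ((g : Matrix ι ι A) - g₀) * P + (1 - Q) * ((g : Matrix ι ι A) - g₀) * (1 - P)) := by
    nth_rewrite 1 [← hg]
    noncomm_ring
  rw [h1, norm_neg]
  calc ‖Q * ((g : Matrix ι ι A) - g₀) * P + (1 - Q) * ((g : Matrix ι ι A) - g₀) * (1 - P)‖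
      ≤ ‖Q * ((g : Matrix ι ι A) - g₀) * P‖ + ‖(1 - Q) * ((g : Matrix ι ι A) - g₀) * (1 - P)‖ :=
        norm_add_le _ _
    _ ≤ ‖Q‖ * ‖(g : Matrix ι ι A) - g₀‖ * ‖P‖ + ‖1 - Q‖ * ‖(g : Matrix ι ι A) - g₀‖ * ‖1 - P‖ := by
        refine add_le_add ?_ ?_
        · exact (norm_mul_le _ _).trans (mul_le_mul_of_nonneg_right (norm_mul_le _ _) (norm_nonneg _))
        · exact (norm_mul_le _ _).trans (mul_le_mul_of_nonneg_right (norm_mul_le _ _) (norm_nonneg _))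
    _ = (‖Q‖ * ‖P‖ + ‖1 - Q‖ * ‖1 - P‖) * ‖(g : Matrix ι ι A) - g₀‖ := by ring
    _ ≤ C * ‖(g : Matrix ι ι A) - g₀‖ := by
        refine mul_le_mul_of_nonneg_right ?_ (norm_nonneg _)
        rw [hC]
        linarith
    _ < C * (δ / C) := mul_lt_mul_of_pos_left hg₀ hCpos
    _ = δ := by field_simp

theorem T1 (hK0G : K0G_stmt) (hK0B : K0B_stmt) (hK0C : K0C_stmt) (hK0D : K0D_stmt) (hK0E : K0E_stmt)
    (hAPX : APX_stmt) (hLPO : LPO_stmt) (hZC : ZC_stmt) (hFUN : FUN_stmt) : T1_stmt := by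
  intro B A _ _ _ _ _ _ al io u c hZ z hz
  have hcov := (hZC B A al io u c hZ).1
  obtain ⟨ι, _, _, P, Q, hP, hQ, g, hzPQ, hg⟩ :=
    T1_size hK0G hK0B hK0C hK0D io.toRingHom z hz
  have hg' : (g : Matrix ι ι A) * P.map io = Q.map io * (g : Matrix ι ι A) := hg
  have hPA : P.map io * P.map io = P.map io := by
    have h := Matrix.map_mul (f := io.toRingHom) (L := P) (M := P)
    rw [hP] at h
    exact h.symm
  have hQA : Q.map io * Q.map io = Q.map io := by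
    have h := Matrix.map_mul (f := io.toRingHom) (L := Q) (M := Q)
    rw [hQ] at h
    exact h.symm
  obtain ⟨ε, hε, hun⟩ := T1_unit A ι (P.map io) (Q.map io) g
  obtain ⟨N, d, x, hd, -, hx⟩ := hAPX B A al io u c hZ ι (g : Matrix ι ι A) ε hε
  have hgg : Q.map io * (g : Matrix ι ι A) * P.map io +
      (1 - Q.map io) * (g : Matrix ι ι A) * (1 - P.map io) = (g : Matrix ι ι A) := by
    rw [← hg', sub_mul, one_mul, ← hg']
    have e1 : (g : Matrix ι ι A) * P.map io * P.map io = (g : Matrix ι ι A) * P.map io := by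
      rw [mul_assoc, hPA]
    rw [e1, sub_mul, mul_sub, mul_sub, mul_one, mul_one, e1]
    abel
  have hunit := hun _ hx hgg
  set U : (Matrix ι ι A)ˣ := uM ι u with hU
  set P' : Matrix ι ι B := P.map (al ^ (-(N : ℤ)) : B ≃ₐ[ℂ] B) with hP'
  have hP'2 : P' * P' = P' := by
    have h := Matrix.map_mul (f := (al ^ (-(N : ℤ)) : B ≃ₐ[ℂ] B).toRingEquiv.toRingHom) (L := P) (M := P)
    rw [hP] at h
    exact h.symm
  have hcovP := T1_cov al io u hcov (ι := ι) (-(N : ℤ)) P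
  rw [← hU, ← hP'] at hcovP
  obtain ⟨V, hV⟩ := hunit
  -- the polynomial
  have hone : ∀ R : Matrix ι ι B, (1 - R).map io = 1 - R.map io := by
    intro R
    have h := map_sub (io.toRingHom.mapMatrix : Matrix ι ι B →+* Matrix ι ι A) 1 R
    rw [map_one] at h
    exact h
  have honek : ∀ (k : ℕ) (R : Matrix ι ι B), (1 - R).map (al ^ k : B ≃ₐ[ℂ] B) =
      1 - R.map (al ^ k : B ≃ₐ[ℂ] B) := by
    intro k R
    have h := map_sub ((al ^ k : B ≃ₐ[ℂ] B).toRingEquiv.toRingHom.mapMatrix :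
      Matrix ι ι B →+* Matrix ι ι B) 1 R
    rw [map_one] at h
    exact h
  have hidk : ∀ k : ℕ, P'.map (al ^ k : B ≃ₐ[ℂ] B) * P'.map (al ^ k : B ≃ₐ[ℂ] B) =
      P'.map (al ^ k : B ≃ₐ[ℂ] B) := by
    intro k
    have h := Matrix.map_mul (f := (al ^ k : B ≃ₐ[ℂ] B).toRingEquiv.toRingHom) (L := P') (M := P')
    rw [hP'2] at h
    exact h.symm
  set x' : ℕ → Matrix ι ι B := fun k => Q * (x k * P'.map (al ^ k : B ≃ₐ[ℂ] B)) +
    (1 - Q) * (x k * (1 - P').map (al ^ k : B ≃ₐ[ℂ] B)) with hx'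
  have hX : ((V * U ^ (N : ℤ) : (Matrix ι ι A)ˣ) : Matrix ι ι A) = pX io u x' d := by
    have e1 : ((U ^ (-(N : ℤ)) : (Matrix ι ι A)ˣ) : Matrix ι ι A) *
        ((U ^ (N : ℤ) : (Matrix ι ι A)ˣ) : Matrix ι ι A) = 1 := by
      rw [← Units.val_mul, ← zpow_add, neg_add_cancel, zpow_zero, Units.val_one]
    have e2 : pX io u x' d = Q.map io * (pX io u x d * P'.map io) +
        (1 - Q.map io) * (pX io u x d * (1 - P'.map io)) := by
      rw [← hone, ← hone, T1_pXmul al io u hcov, T1_pXmul al io u hcov, T1_mulpX, T1_mulpX,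
        T1_addpX]
    rw [e2, Units.val_mul, hV]
    have e3 : pX io u x d * ((U ^ (-(N : ℤ)) : (Matrix ι ι A)ˣ) : Matrix ι ι A) * P.map io *
        ((U ^ (N : ℤ) : (Matrix ι ι A)ˣ) : Matrix ι ι A) = pX io u x d * P'.map io := by
      rw [mul_assoc (pX io u x d), hcovP, ← mul_assoc, mul_assoc _ _ ((U ^ (N : ℤ) :
        (Matrix ι ι A)ˣ) : Matrix ι ι A), e1, mul_one]
    have e4 : pX io u x d * ((U ^ (-(N : ℤ)) : (Matrix ι ι A)ˣ) : Matrix ι ι A) *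
        ((U ^ (N : ℤ) : (Matrix ι ι A)ˣ) : Matrix ι ι A) = pX io u x d := by
      rw [mul_assoc, e1, mul_one]
    calc (Q.map io * (pX io u x d * ((U ^ (-(N : ℤ)) : (Matrix ι ι A)ˣ) : Matrix ι ι A)) * P.map io +
        (1 - Q.map io) * (pX io u x d * ((U ^ (-(N : ℤ)) : (Matrix ι ι A)ˣ) : Matrix ι ι A)) *
          (1 - P.map io)) * ((U ^ (N : ℤ) : (Matrix ι ι A)ˣ) : Matrix ι ι A)
        = Q.map io * (pX io u x d * ((U ^ (-(N : ℤ)) : (Matrix ι ι A)ˣ) : Matrix ι ι A) * P.map io *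
          ((U ^ (N : ℤ) : (Matrix ι ι A)ˣ) : Matrix ι ι A)) +
          (1 - Q.map io) * (pX io u x d * ((U ^ (-(N : ℤ)) : (Matrix ι ι A)ˣ) : Matrix ι ι A) *
          ((U ^ (N : ℤ) : (Matrix ι ι A)ˣ) : Matrix ι ι A) -
          pX io u x d * ((U ^ (-(N : ℤ)) : (Matrix ι ι A)ˣ) : Matrix ι ι A) * P.map io *
          ((U ^ (N : ℤ) : (Matrix ι ι A)ˣ) : Matrix ι ι A)) := by noncomm_ring
      _ = Q.map io * (pX io u x d * P'.map io) +
          (1 - Q.map io) * (pX io u x d - pX io u x d * P'.map io) := by rw [e3, e4]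
      _ = _ := by rw [mul_sub (pX io u x d), mul_one]
  obtain ⟨w, hw⟩ := hLPO B A al io u c hZ ι d x' (V * U ^ (N : ℤ)) P' Q hP'2 hQ hd hX (by
    intro k
    have e1 : x' k = Q * (x k * P'.map (al ^ k : B ≃ₐ[ℂ] B)) +
      (1 - Q) * (x k * (1 - P'.map (al ^ k : B ≃ₐ[ℂ] B))) := by
      rw [← honek]
    rw [e1]
    set p : Matrix ι ι B := P'.map (al ^ k : B ≃ₐ[ℂ] B) with hp
    have e2 : p * p = p := hidk k
    have e3 : (Q * (x k * p) + (1 - Q) * (x k * (1 - p))) * p = Q * (x k * p) := by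
      have : (Q * (x k * p) + (1 - Q) * (x k * (1 - p))) * p =
        Q * (x k * (p * p)) + (1 - Q) * (x k * (p - p * p)) := by noncomm_ring
      rw [this, e2, sub_self, mul_zero, mul_zero, add_zero]
    have e4 : Q * (Q * (x k * p) + (1 - Q) * (x k * (1 - p))) = Q * (x k * p) := by
      have : Q * (Q * (x k * p) + (1 - Q) * (x k * (1 - p))) =
        (Q * Q) * (x k * p) + (Q - Q * Q) * (x k * (1 - p)) := by noncomm_ring
      rw [this, hQ, sub_self, zero_mul, add_zero]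
    rw [e3, e4])
  obtain ⟨v, hv⟩ := T1_tel hFUN al (k0 P hP) N
  refine ⟨v + w, ?_⟩
  have e5 : k0a (al ^ (-(N : ℤ))) (k0 P hP) = k0 P' hP'2 := rfl
  rw [e5] at hv
  rw [hzPQ, map_add]
  have e6 : k0 P hP - k0 Q hQ = (k0 P hP - k0 P' hP'2) + (k0 P' hP'2 - k0 Q hQ) := by abel
  rw [e6, hv, hw]
  abel

end norms

end Pool.Agent.PV
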